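import Pool.Agent.W922.SX.NetMain

/-!
The conjecture `r(k,n) = 2n - 1` on the multistage shuffle-exchange graphs fails for all `k ≥ 3`
and `n ≥ 3`: the graph `(SE(k,n))^(r-1)` is rearrangeable only if `r ≥ 2n`. The bound is sharp
for `n = 3`: `r(k,3) = 6` for all `k ≥ 3`.

The definitions `SEAdj`, `stageGraph`, `IsMask`, `Rearrangeable` are those of the file
`Pool/Agent/Results/MP_ec5f85_co/ShuffleThree.lean`.
-/

set_option autoImplicit false

namespace Pool.Agent.Results.MP_ec5f85_co.AllLargerCases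

open Pool.Agent.Results.MP_ec5f85_co.ShuffleThree (SEAdj stageGraph IsMask Rearrangeable)
open Pool.Agent.W922.SX.Net

/-- **`r(k,n) ≥ 2n` for all `k, n ≥ 3`, with equality for `n = 3`**: a rearrangeable
graph `(SE(k,n))^(r-1)` with `k, n ≥ 3` and `r ≥ 2` has `r ≥ 2n`, so the conjectured value
`2n - 1` is wrong in all these cases; and `2n` stages suffice if `n = 3`. -/
theorem result (k n : ℕ) (hk : 3 ≤ k) (hn : 3 ≤ n) :
    (∀ r : ℕ, 2 ≤ r → Rearrangeable k n r → 2 * n ≤ r) ∧
    (n = 3 → IsLeast {r | 2 ≤ r ∧ Rearrangeable k n r} (2 * n)) := by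
  refine ⟨fun r hr h => rearrangeable_bound hk hn hr h, ?_⟩
  rintro rfl
  refine ⟨⟨by norm_num, rearrangeable_three (by omega) (by norm_num)⟩, ?_⟩
  rintro r ⟨h1, h2⟩
  exact rearrangeable_bound hk le_rfl h1 h2

end Pool.Agent.Results.MP_ec5f85_co.AllLargerCases
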